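import Pool.Agent.H70.PW.Targets

/-!
# BSR: binary search
-/

set_option autoImplicit false

namespace Pool.Agent.H18.PW.BSR

open Finset Pool.Agent.H6.NB Pool.Agent.H70.OQ Pool.Agent.H70.PW

/-- The search: `m` bits remain, the prefix found so far is `a`, the last answer is `r`. -/
def go : List Bool → Bool → ℕ → DT
  | _, r, 0 => DT.leaf r
  | a, _, m + 1 => DT.node (a ++ true :: List.replicate m false) (go (a ++ [false]) false m)
      (go (a ++ [true]) true m)

theorem go_depth (m : ℕ) : ∀ (a : List Bool) (r : Bool), (go a r m).depth ≤ m := by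
  induction m with
  | zero => intro a r; simp [go, DT.depth]
  | succ m ih =>
    intro a r
    simp only [go, DT.depth]
    have h1 := ih (a ++ [false]) false
    have h2 := ih (a ++ [true]) true
    omega

theorem go_short (n m : ℕ) : ∀ (a : List Bool) (r : Bool), a.length + m ≤ n → (go a r m).Short n := by
  induction m with
  | zero => intro a r _; simp [go, DT.Short]
  | succ m ih =>
    intro a r h
    simp only [go, DT.Short]
    refine ⟨?_, ih _ _ ?_, ih _ _ ?_⟩ <;> simp <;> omega

theorem go_empty (Q : List Bool → Bool) (n m : ℕ) (hQ : ∀ y, y.length = n → Q y = false) :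
    ∀ (a : List Bool), a.length + m = n → (go a false m).eval Q = false := by
  induction m with
  | zero => intro a _; simp [go, DT.eval]
  | succ m ih =>
    intro a h
    simp only [go, DT.eval]
    have h1 : Q (a ++ true :: List.replicate m false) = false := hQ _ (by simp; omega)
    rw [h1]
    simp only [Bool.false_eq_true, if_false]
    exact ih _ (by simp; omega)

/-- Nothing is followed by the zero string. -/
theorem not_later_zero (c : List Bool) (m : ℕ) : ¬ Later c (List.replicate m false) := by
  rintro ⟨a, b, d, -, h⟩
  have : true ∈ List.replicate m false := by rw [h]; simp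
  rw [List.mem_replicate] at this
  exact absurd this.2 (by simp)

/-- Two decompositions of a string. -/
theorem split2 (a p s t : List Bool) (x y : Bool) (h : a ++ x :: s = p ++ y :: t) :
    (∃ q, a = p ++ y :: q) ∨ (a = p ∧ x = y ∧ s = t) ∨ ∃ q, p = a ++ x :: q := by
  rcases List.append_eq_append_iff.1 h with ⟨q, h1, h2⟩ | ⟨q, h1, h2⟩
  · cases q with
    | nil =>
      right; left
      simp at h1 h2
      exact ⟨h1.symm, h2.1, h2.2⟩
    | cons z q =>
      right; right
      simp at h2
      exact ⟨q, by rw [h1, h2.1]⟩
  · cases q with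
    | nil =>
      right; left
      simp at h1 h2
      exact ⟨h1, h2.1.symm, h2.2.symm⟩
    | cons z q =>
      left
      simp at h2
      exact ⟨q, by rw [h1, h2.1]⟩

theorem later_snoc (a v : List Bool) (x : Bool) (h : Later (a ++ [x]) v) :
    Later a v ∨ (x = false ∧ ∃ c, v = a ++ true :: c) := by
  obtain ⟨p, b, c, h1, h2⟩ := h
  rcases split2 a p [] b x false h1 with ⟨q, hq⟩ | ⟨h3, h4, h5⟩ | ⟨q, hq⟩
  · exact Or.inl ⟨p, q, c, hq, h2⟩
  · exact Or.inr ⟨h4, c, by rw [h2, h3]⟩
  · exfalso
    have := congrArg List.length h1
    rw [hq] at this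
    simp at this

theorem mem_geq (h1 : T_LTR) (K : ℕ) (O : List Bool → Bool) (a : List Bool) (m : ℕ)
    (I2 : ∀ v : List Bool, v.length = a.length + (m + 1) → Special K O v → ¬ Later a v) :
    a ++ true :: List.replicate m false ∈ geqlang K O ↔
      ∃ c : List Bool, (a ++ true :: c).length = a.length + (m + 1) ∧ Special K O (a ++ true :: c) := by
  constructor
  · rintro ⟨u, hu, hs, hl⟩
    have hu' : u.length = a.length + (m + 1) := by rw [hu]; simp
    rcases h1.2.2.1 u (a ++ true :: List.replicate m false) hu with h | h | h
    · exact ⟨List.replicate m false, by simp, by rw [← h]; exact hs⟩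
    · exact absurd h hl
    · obtain ⟨p, b, c, h2, h3⟩ := h
      rcases split2 _ _ _ _ _ _ h2 with ⟨q, hq⟩ | ⟨-, h4, -⟩ | ⟨q, hq⟩
      · exact absurd ⟨p, q, c, hq, h3⟩ (I2 u hu' hs)
      · cases h4
      · refine ⟨q ++ true :: c, ?_, ?_⟩
        · rw [← hu', h3, hq]; simp
        · rw [h3, hq] at hs; simpa using hs
  · rintro ⟨c, hc, hs⟩
    refine ⟨a ++ true :: c, ?_, hs, ?_⟩
    · rw [hc]; simp
    · intro h
      have h2 := (h1.2.2.2.2 (true :: c) (true :: List.replicate m false) a).2 h
      have h3 := (h1.2.2.2.2 c (List.replicate m false) [true]).2 (by simpa using h2)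
      exact not_later_zero _ _ h3

open Classical in
theorem go_main (h1 : T_LTR) (K : ℕ) (O : List Bool → Bool) (n m : ℕ) :
    ∀ (a : List Bool) (r : Bool), a.length + m = n →
    (∃ c : List Bool, (a ++ c).length = n ∧ Special K O (a ++ c)) →
    (∀ v : List Bool, v.length = n → Special K O v → ¬ Later a v) →
    a.getLast?.getD false = r →
    ((go a r m).eval (fun y => decide (y ∈ geqlang K O)) = true ↔
      ∃ u : List Bool, u.length = n ∧ Special K O u ∧ u.getLast? = some true ∧
        ∀ v : List Bool, v.length = n → Special K O v → ¬ Later u v) := by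
  induction m with
  | zero =>
    intro a r hl ⟨c, hc, hs⟩ I2 I3
    have hc0 : c = [] := by
      rw [List.length_append] at hc
      exact List.length_eq_zero_iff.1 (by omega)
    subst hc0
    rw [List.append_nil] at hc hs
    simp only [go, DT.eval]
    constructor
    · intro hr
      refine ⟨a, hc, hs, ?_, I2⟩
      rw [hr] at I3
      cases hg : a.getLast? with
      | none => rw [hg] at I3; simp at I3
      | some z => rw [hg] at I3; simp at I3; rw [I3]
    · rintro ⟨u, hu, hsu, hlu, hv⟩
      have : u = a := by
        rcases h1.2.2.1 u a (by rw [hu, hc]) with h | h | h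
        · exact h
        · exact absurd h (hv a hc hs)
        · exact absurd h (I2 u hu hsu)
      rw [this] at hlu
      rw [hlu] at I3
      simpa using I3.symm
  | succ m ih =>
    intro a r hl ⟨c, hc, hs⟩ I2 I3
    have hmem := mem_geq h1 K O a m (by rw [hl]; exact I2)
    simp only [go, DT.eval]
    by_cases hq : a ++ true :: List.replicate m false ∈ geqlang K O
    · simp only [hq, decide_true, if_true]
      obtain ⟨c', hc', hs'⟩ := hmem.1 hq
      apply ih
      · simp; omega
      · exact ⟨c', by simp at hc' ⊢; omega, by simpa using hs'⟩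
      · intro v hv hsv hL
        rcases later_snoc _ _ _ hL with h | ⟨h, -⟩
        · exact I2 v hv hsv h
        · cases h
      · simp
    · simp only [hq, decide_false, Bool.false_eq_true, if_false]
      apply ih
      · simp; omega
      · cases c with
        | nil => simp at hc; omega
        | cons z c =>
          cases z with
          | true => exact absurd (hmem.2 ⟨c, by rw [hc, hl], hs⟩) hq
          | false => exact ⟨c, by simp at hc ⊢; omega, by simpa using hs⟩
      · intro v hv hsv hL
        rcases later_snoc _ _ _ hL with h | ⟨-, c', h⟩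
        · exact I2 v hv hsv h
        · exact hq (hmem.2 ⟨c', by rw [← h, hv, hl], by rw [← h]; exact hsv⟩)
      · simp

theorem bsr (h1 : T_LTR) : T_BSR := by
  classical
  refine ⟨fun x => go [] false x.length, fun x => ⟨go_depth _ _ _, go_short _ _ _ _ (by simp)⟩, ?_⟩
  intro K O x
  by_cases hE : ∃ c : List Bool, c.length = x.length ∧ Special K O c
  · have h2 := go_main h1 K O x.length x.length [] false (by simp) (by simpa using hE)
      (by
        rintro v - - ⟨a, b, c, h, -⟩
        cases a <;> simp at h) (by simp)
    exact h2.symm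
  · constructor
    · rintro ⟨u, hu, hs, -⟩
      exact absurd ⟨u, hu, hs⟩ hE
    · intro h
      exfalso
      have h3 := go_empty (fun y => decide (y ∈ geqlang K O)) x.length x.length (by
        intro y hy
        rw [decide_eq_false_iff_not]
        rintro ⟨u, hu, hs, -⟩
        exact hE ⟨u, by rw [hu, hy], hs⟩) [] (by simp)
      rw [h3] at h
      cases h

end Pool.Agent.H18.PW.BSR
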