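import Pool.Agent.H70.PW.Targets

/-!
# TAP: products of the test functionals
-/

set_option autoImplicit false

namespace Pool.Agent.H18.PW.TAP

open Finset Pool.Agent.H6.NB Pool.Agent.H70.OQ Pool.Agent.H70.PW

theorem ic_pos {p : Prop} (h : p) : ic p = 1 := by unfold ic; rw [if_pos h]

theorem ic_neg {p : Prop} (h : ¬ p) : ic p = 0 := by unfold ic; rw [if_neg h]

/-- Summation over the blocks. -/
theorem sum_point {ι : Type} [Fintype ι] [DecidableEq ι] {T : ι → Type} [∀ s, Fintype (T s)]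
    [∀ s, DecidableEq (T s)] (a : ∀ s, T s) (X : (∀ s, T s) → ℝ) :
    ∑ P : ∀ s, T s, (∏ s, ic (a s = P s)) * X P = X a := by
  rw [Finset.sum_eq_single a]
  · rw [Finset.prod_eq_one fun s _ => ic_pos rfl, one_mul]
  · intro P _ hP
    have : ∃ s, a s ≠ P s := by
      by_contra h
      push Not at h
      exact hP (funext fun s => (h s).symm)
    obtain ⟨s, hs⟩ := this
    rw [Finset.prod_eq_zero (mem_univ s) (ic_neg hs), zero_mul]
  · intro h
    exact absurd (mem_univ _) h

/-- The first expansion. -/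
theorem expand1 {ι : Type} [Fintype ι] [DecidableEq ι] {Y T : ι → Type} [∀ s, Fintype (Y s)]
    [∀ s, DecidableEq (Y s)] [∀ s, Fintype (T s)] [∀ s, DecidableEq (T s)]
    (A : ∀ s, Y s → ℝ) (π : ∀ s, Y s → T s) (X : (∀ s, T s) → ℝ) :
    ∑ P : ∀ s, T s, (∏ s, ∑ y, A s y * ic (π s y = P s)) * X P =
      ∑ y : ∀ s, Y s, (∏ s, A s (y s)) * X (fun s => π s (y s)) := by
  have h1 : ∀ P : ∀ s, T s, (∏ s, ∑ y, A s y * ic (π s y = P s)) * X P =
      ∑ y : ∀ s, Y s, (∏ s, A s (y s)) * ((∏ s, ic (π s (y s) = P s)) * X P) := by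
    intro P
    rw [Finset.prod_univ_sum, Fintype.piFinset_univ, Finset.sum_mul]
    refine Finset.sum_congr rfl fun y _ => ?_
    rw [Finset.prod_mul_distrib, mul_assoc]
  rw [Finset.sum_congr rfl fun P _ => h1 P, Finset.sum_comm]
  refine Finset.sum_congr rfl fun y _ => ?_
  rw [← Finset.mul_sum, sum_point (fun s => π s (y s)) X]

/-- The second expansion. -/
theorem expand2 {ι : Type} [Fintype ι] [DecidableEq ι] {V : ι → Type} [∀ s, Fintype (V s)]
    [∀ s, DecidableEq (V s)] (j : ι → ℕ) (ε : ∀ s, Finset (V s) → ℝ) (B : ℝ)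
    (g : (∀ s, V s → Bool) → ℝ) :
    ∑ y : ∀ s, V s → Bool, (∏ s, (∑ U ∈ powersetCard (j s) (univ : Finset (V s)),
      ε s U * ∏ u ∈ U, sg (y s u)) / (B ^ j s * 2 ^ Fintype.card (V s))) * g y =
    (∑ U ∈ Fintype.piFinset fun s => powersetCard (j s) (univ : Finset (V s)),
      (∏ s, ε s (U s)) * hat (fun y : (Σ s, V s) → Bool => g fun s v => y ⟨s, v⟩)
        (univ.sigma U)) / B ^ (∑ s, j s) := by
  have hc : (2 : ℝ) ^ Fintype.card (Σ s, V s) = ∏ s, 2 ^ Fintype.card (V s) := by
    rw [Fintype.card_sigma, Finset.prod_pow_eq_pow_sum]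
  have h1 : ∀ y : ∀ s, V s → Bool, (∏ s, (∑ U ∈ powersetCard (j s) (univ : Finset (V s)),
      ε s U * ∏ u ∈ U, sg (y s u)) / (B ^ j s * 2 ^ Fintype.card (V s))) * g y =
      (∑ U ∈ Fintype.piFinset fun s => powersetCard (j s) (univ : Finset (V s)),
        (∏ s, ε s (U s)) * (g y * ∏ s, ∏ u ∈ U s, sg (y s u))) /
        (B ^ (∑ s, j s) * 2 ^ Fintype.card (Σ s, V s)) := by
    intro y
    rw [Finset.prod_div_distrib, Finset.prod_mul_distrib, Finset.prod_pow_eq_pow_sum, ← hc,
      Finset.prod_univ_sum, div_mul_eq_mul_div, Finset.sum_mul]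
    congr 1
    refine Finset.sum_congr rfl fun U _ => ?_
    rw [Finset.prod_mul_distrib]
    ring
  rw [Finset.sum_congr rfl fun y _ => h1 y, ← Finset.sum_div, Finset.sum_comm, div_mul_eq_div_div_swap]
  congr 1
  rw [Finset.sum_div]
  refine Finset.sum_congr rfl fun U _ => ?_
  rw [← Finset.mul_sum, mul_div_assoc]
  congr 1
  unfold hat
  congr 1
  rw [← Equiv.sum_comp (Equiv.piCurry fun (s : ι) (_ : V s) => Bool)]
  refine Finset.sum_congr rfl fun y _ => ?_
  rw [Finset.prod_sigma]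
  rfl

theorem tap : T_TAP := by
  intro ι _ _ q N B f hB hL τ hτ
  have hτ' : ∀ s, Tau (q s) (N s) B (τ s) := hτ
  unfold Tau at hτ'
  choose j π ε hj hπ hε hP using hτ'
  have hJ : ∑ s, j s ≤ 2 * Fintype.card ι := by
    calc ∑ s, j s ≤ ∑ _s : ι, 2 := Finset.sum_le_sum fun s _ => by rcases hj s with h | h <;> omega
      _ = 2 * Fintype.card ι := by simp [mul_comm]
  have hB0 : 0 < B ^ (∑ s, j s) := by positivity
  have h1 : ∑ P, (∏ s, τ s (P s)) * bi (f P) =
      (∑ U ∈ Fintype.piFinset fun s => powersetCard (j s) (univ : Finset (VV (q s))),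
      (∏ s, ε s (U s)) * hat (fun y : (Σ s, VV (q s)) → Bool => bi (f fun s => π s fun v => y ⟨s, v⟩))
        (univ.sigma U)) / B ^ (∑ s, j s) := by
    rw [← expand2 j ε B (fun y => bi (f fun s => π s (y s)))]
    refine Eq.trans ?_ (expand1 (fun s (y : VV (q s) → Bool) =>
      (∑ U ∈ powersetCard (j s) (univ : Finset (VV (q s))), ε s U * ∏ u ∈ U, sg (y u)) /
        (B ^ j s * 2 ^ Fintype.card (VV (q s)))) π (fun P => bi (f P)))
    refine Finset.sum_congr rfl fun P _ => ?_
    congr 1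
    exact Finset.prod_congr rfl fun s _ => hP s (P s)
  rw [h1, abs_div, abs_of_pos hB0, div_le_one hB0]
  refine le_trans ?_ (hL _ π hJ hπ)
  unfold L1k
  have hinj : Set.InjOn (fun U : ∀ s, Finset (VV (q s)) => (univ : Finset ι).sigma U)
      (Fintype.piFinset fun s => powersetCard (j s) (univ : Finset (VV (q s))) :
        Finset (∀ s, Finset (VV (q s)))) := by
    intro U _ U' _ h
    funext s
    ext v
    have := congrArg (fun W : Finset (Σ s, VV (q s)) => (⟨s, v⟩ : Σ s, VV (q s)) ∈ W) h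
    simpa using this
  calc |∑ U ∈ Fintype.piFinset fun s => powersetCard (j s) (univ : Finset (VV (q s))),
      (∏ s, ε s (U s)) * hat (fun y : (Σ s, VV (q s)) → Bool => bi (f fun s => π s fun v => y ⟨s, v⟩))
        (univ.sigma U)|
      ≤ ∑ U ∈ Fintype.piFinset fun s => powersetCard (j s) (univ : Finset (VV (q s))),
        |hat (fun y : (Σ s, VV (q s)) → Bool => bi (f fun s => π s fun v => y ⟨s, v⟩))
          (univ.sigma U)| := by
        refine (Finset.abs_sum_le_sum_abs _ _).trans (Finset.sum_le_sum fun U _ => ?_)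
        rw [abs_mul, Finset.abs_prod]
        refine mul_le_of_le_one_left (abs_nonneg _) ?_
        exact Finset.prod_le_one (fun s _ => abs_nonneg _) fun s _ => hε s (U s)
    _ = ∑ W ∈ (Fintype.piFinset fun s => powersetCard (j s) (univ : Finset (VV (q s)))).image
          (fun U : ∀ s, Finset (VV (q s)) => (univ : Finset ι).sigma U),
        |hat (fun y : (Σ s, VV (q s)) → Bool => bi (f fun s => π s fun v => y ⟨s, v⟩)) W| := by
        rw [Finset.sum_image hinj]
    _ ≤ _ := by
        refine Finset.sum_le_sum_of_subset_of_nonneg ?_ fun _ _ _ => abs_nonneg _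
        intro W hW
        rw [Finset.mem_image] at hW
        obtain ⟨U, hU, rfl⟩ := hW
        rw [Fintype.mem_piFinset] at hU
        rw [Finset.mem_powersetCard]
        refine ⟨Finset.subset_univ _, ?_⟩
        rw [Finset.card_sigma]
        exact Finset.sum_congr rfl fun s _ => (Finset.mem_powersetCard.1 (hU s)).2

end Pool.Agent.H18.PW.TAP
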